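import Pool.Agent.H24.Pre1

universe u

namespace Pool.Agent.Results.MP_bb0bf1_gt.General

open Pool.Agent.H24.Pre

theorem result : ∀ (X : Type u) [TopologicalSpace X],
    List.TFAE [∀ r : X → X → Prop, CP r → WC r, ∀ r : X → X → Prop, CP r → MU r,
      ∀ r : X → X → Prop, CP r → Nrm r] :=
  fun _ _ => tfae

end Pool.Agent.Results.MP_bb0bf1_gt.General
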