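import Pool.Agent.H24.Pre3

universe u

namespace Pool.Agent.Results.MP_bb0bf1_gt.Metrizable

open Pool.Agent.H24.Pre

theorem result : ∀ (X : Type u) [TopologicalSpace X] [TopologicalSpace.MetrizableSpace X],
    (∀ r : X → X → Prop, CP r → WC r) ↔ IsCompact (derivedSet (Set.univ : Set X)) ∨
      (LocallyCompactSpace X ∧ TopologicalSpace.IsSeparable (derivedSet (Set.univ : Set X))) := by
  intro X _ _
  letI := TopologicalSpace.metrizableSpaceMetric X
  exact metric_char

end Pool.Agent.Results.MP_bb0bf1_gt.Metrizable
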